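import Pool.Agent.H91.EP.Com

/-!
HEA: the mixed inequality for a coordinate which does not contain the type `j`.
-/

set_option autoImplicit false

open Finset
open scoped Classical

namespace Pool.Agent.H91.EP.HEA

open Pool.Agent.H64.EP Pool.Agent.H91.EP.Com

/-- the conditional expectation on one letter -/
noncomputable def gg {L R : ℕ} (ψ : St L R → ℝ) (a : Lab L R) : ℝ :=
  avg (fun σ : St L R => if σ a.1 = a.2 then (R : ℝ) * ψ σ else 0)

/-- the average over the labels -/
noncomputable def ps {L R : ℕ} (f : W L R → ℝ) (σ : St L R) : ℝ :=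
  avg (fun a : Lab L R => f (a, σ))

lemma sum_mem {k L R : ℕ} (hL : 1 ≤ L) (hR : 1 ≤ R) {i j : Fin k} {e : Sym2 (Fin k)}
    (hj : j ∉ e) (hi : i ∈ e) (z : W L R) (f : W L R → ℝ) :
    ∑ x, ker j e i z x * f x = gg (ps f) z.1 := by
  have hij : i ≠ j := fun h => hj (h ▸ hi)
  have hL0 : (L : ℝ) ≠ 0 := by positivity
  have hR0 : (R : ℝ) ≠ 0 := by positivity
  have hrel : ∀ x : W L R, rel i j e x z ↔ x.2 z.1.1 = z.1.2 := by
    intro x
    unfold rel
    constructor
    · intro h
      exact h.1 hi hj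
    · intro h
      exact ⟨fun _ _ => h, fun h1 => absurd hi h1, fun _ h2 => absurd h2 hj⟩
  have hcnt : cnt L R i j e = (L : ℝ) * R ^ L := by
    unfold cnt
    rw [if_pos hi, if_neg hj]
  unfold ker
  simp only [if_neg hij, hcnt, hrel]
  rw [Fintype.sum_prod_type_right]
  unfold gg ps avg
  rw [Finset.sum_div]
  apply Finset.sum_congr rfl
  intro σ _
  have hc1 : (Fintype.card (Lab L R) : ℝ) = (L : ℝ) * R := by
    rw [Fintype.card_prod, Fintype.card_fin, Fintype.card_fin]; push_cast; rfl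
  have hc2 : (Fintype.card (St L R) : ℝ) = (R : ℝ) ^ L := by
    rw [Fintype.card_fun, Fintype.card_fin, Fintype.card_fin]; push_cast; rfl
  rw [hc1, hc2]
  by_cases h : σ z.1.1 = z.1.2
  · simp only [h, if_true]
    rw [← Finset.mul_sum]
    field_simp
  · simp only [h, if_false, zero_div, zero_mul, Finset.sum_const_zero]

lemma sum_not_mem {k L R : ℕ} {i j : Fin k} {e : Sym2 (Fin k)}
    (hj : j ∉ e) (hi : i ∉ e) (z : W L R) (f : W L R → ℝ) :
    ∑ x, ker j e i z x * f x = avg f := by
  have hrel : ∀ x : W L R, rel i j e x z := by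
    intro x
    exact ⟨fun h => absurd h hi, fun _ h => absurd h hj, fun h => absurd h hi⟩
  have hcnt : cnt L R i j e = (L : ℝ) * R * R ^ L := by
    unfold cnt
    rw [if_neg hi, if_neg hj]
  unfold ker
  by_cases hij : i = j
  · simp only [if_pos hij]
    exact sum_const_ker f
  · simp only [if_neg hij, hcnt, hrel, if_true]
    exact sum_const_ker f

lemma ps_mem {L R : ℕ} (hL : 1 ≤ L) (hR : 1 ≤ R) {f : W L R → ℝ}
    (hf : ∀ x, -1 ≤ f x ∧ f x ≤ 0) (σ : St L R) : -1 ≤ ps f σ ∧ ps f σ ≤ 0 := by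
  have : Nonempty (Fin L) := ⟨⟨0, hL⟩⟩
  have : Nonempty (Fin R) := ⟨⟨0, hR⟩⟩
  constructor
  · have := avg_mono (f := fun _ : Lab L R => (-1 : ℝ)) (g := fun a => f (a, σ))
      (fun a => (hf _).1)
    rw [avg_const] at this
    exact this
  · have := avg_mono (f := fun a => f (a, σ)) (g := fun _ : Lab L R => (0 : ℝ))
      (fun a => (hf _).2)
    rw [avg_const] at this
    exact this

theorem pf_HEA (h1 : T_K1) : T_HEA := by
  intro k L R r hr hR hL j e hj φ hφ
  have hR1 : 1 ≤ R := by omega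
  have hL1 : 1 ≤ L := by
    have : 1 ≤ 4 * r * 9 ^ r := Nat.one_le_iff_ne_zero.2 (by positivity)
    omega
  have : Nonempty (Fin L) := ⟨⟨0, hL1⟩⟩
  have : Nonempty (Fin R) := ⟨⟨0, hR1⟩⟩
  set E : Finset (Fin k) := univ.filter (fun i => i ∈ e) with hE
  set E' : Finset (Fin k) := univ.filter (fun i => i ∉ e) with hE'
  -- the sums
  have hsum : ∀ z : W L R, ∑ i, ∑ x, ker j e i z x * φ i x
      = ∑ i ∈ E, gg (ps (φ i)) z.1 + ∑ i ∈ E', avg (φ i) := by
    intro z
    rw [← Finset.sum_filter_add_sum_filter_not univ (fun i => i ∈ e)]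
    congr 1
    · exact Finset.sum_congr rfl fun i hi =>
        sum_mem hL1 hR1 hj (Finset.mem_filter.1 hi).2 z (φ i)
    · exact Finset.sum_congr rfl fun i hi =>
        sum_not_mem hj (Finset.mem_filter.1 hi).2 z (φ i)
  have hlhs : avg (fun z : W L R => Real.exp (r * ∑ i, ∑ x, ker j e i z x * φ i x))
      = Real.exp (∑ i ∈ E', r * avg (φ i)) *
        avg (fun a : Lab L R => Real.exp (∑ i ∈ E, r * gg (ps (φ i)) a)) := by
    have e1 : ∀ z : W L R, Real.exp (r * ∑ i, ∑ x, ker j e i z x * φ i x)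
        = Real.exp (∑ i ∈ E', r * avg (φ i)) *
          Real.exp (∑ i ∈ E, r * gg (ps (φ i)) z.1) := by
      intro z
      rw [hsum, mul_add, Real.exp_add, Finset.mul_sum, Finset.mul_sum, mul_comm]
    simp only [e1]
    rw [avg_mul_left]
    congr 1
    exact avg_fst (fun a : Lab L R => Real.exp (∑ i ∈ E, r * gg (ps (φ i)) a))
  have hprod : (∏ i, avg (fun x => Real.exp (φ i x))) ^ r
      = (∏ i ∈ E', (avg (fun x => Real.exp (φ i x))) ^ r) *
        ∏ i ∈ E, (avg (fun x => Real.exp (φ i x))) ^ r := by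
    rw [← Finset.prod_filter_mul_prod_filter_not univ (fun i => i ∈ e), mul_pow,
      Finset.prod_pow, Finset.prod_pow, mul_comm]
  show avg (fun z : W L R => Real.exp (r * ∑ i, ∑ x, ker j e i z x * φ i x)) ≤ _
  rw [hlhs, hprod]
  apply mul_le_mul
  · rw [Real.exp_sum]
    exact Finset.prod_le_prod (fun i _ => (Real.exp_pos _).le)
      (fun i _ => exp_mul_avg_le r (φ i))
  · apply le_of_sq
    · exact Finset.prod_nonneg fun i _ => pow_nonneg (avg_exp_nonneg _) _
    · refine (cs2 E (card_mem_le e) (fun i a => r * gg (ps (φ i)) a)).trans ?_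
      rw [← Finset.prod_pow]
      apply Finset.prod_le_prod (fun i _ => avg_exp_nonneg _)
      intro i _
      have hK := h1 L R (2 * r) hR1 (by omega) (by
        calc 2 * (2 * r) * 3 ^ (2 * r) = 4 * r * 9 ^ r := by
              rw [pow_mul]; norm_num; ring
          _ ≤ L := hL) (ps (φ i)) (ps_mem hL1 hR1 (hφ i))
      have e2 : (fun a : Lab L R => Real.exp (2 * (r * gg (ps (φ i)) a)))
          = fun a : Fin L × Fin R => Real.exp (((2 * r : ℕ) : ℝ) * avg (fun σ : Fin L → Fin R =>
            if σ a.1 = a.2 then (R : ℝ) * ps (φ i) σ else 0)) := by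
        funext a
        congr 1
        push_cast
        unfold gg
        ring
      rw [e2]
      refine hK.trans ?_
      rw [← pow_mul, mul_comm r 2]
      apply pow_le_pow_left₀ (avg_exp_nonneg _)
      exact jensen_right (φ i)
  · exact avg_exp_nonneg _
  · exact Finset.prod_nonneg fun i _ => pow_nonneg (avg_exp_nonneg _) _

end Pool.Agent.H91.EP.HEA
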