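import Pool.Agent.H91.EP.Com

/-!
HEB: the mixed inequality for a coordinate which contains the type `j`.
-/

set_option autoImplicit false

open Finset
open scoped Classical

namespace Pool.Agent.H91.EP.HEB

open Pool.Agent.H64.EP Pool.Agent.H91.EP.Com

/-- the average over the transversals -/
noncomputable def th {L R : ℕ} (f : W L R → ℝ) (a : Lab L R) : ℝ :=
  avg (fun σ : St L R => f (a, σ))

/-- the average over the labels -/
noncomputable def ps {L R : ℕ} (f : W L R → ℝ) (σ : St L R) : ℝ :=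
  avg (fun a : Lab L R => f (a, σ))

/-- the average over the disjoint transversals -/
noncomputable def hh {L q : ℕ} (ψ : (Fin L → Fin (q + 1)) → ℝ) (σ : Fin L → Fin (q + 1)) : ℝ :=
  (∑ σ' : Fin L → Fin (q + 1), if (∀ t, σ' t ≠ σ t) then ψ σ' else 0) / (q : ℝ) ^ L

lemma card_Lab (L R : ℕ) : (Fintype.card (Lab L R) : ℝ) = (L : ℝ) * R := by
  rw [Fintype.card_prod, Fintype.card_fin, Fintype.card_fin]; push_cast; rfl

lemma card_St (L R : ℕ) : (Fintype.card (St L R) : ℝ) = (R : ℝ) ^ L := by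
  rw [Fintype.card_fun, Fintype.card_fin, Fintype.card_fin]; push_cast; rfl

lemma sum_eq {k L R : ℕ} {j : Fin k} {e : Sym2 (Fin k)} (z : W L R) (f : W L R → ℝ) :
    ∑ x, ker j e j z x * f x = avg f := by
  unfold ker
  simp only [if_true]
  exact sum_const_ker f

lemma sum_not_mem {k L R : ℕ} (hL : 1 ≤ L) (hR : 1 ≤ R) {i j : Fin k} {e : Sym2 (Fin k)}
    (hj : j ∈ e) (hi : i ∉ e) (z : W L R) (f : W L R → ℝ) :
    ∑ x, ker j e i z x * f x = (∑ t, th f (t, z.2 t)) / L := by
  have hij : i ≠ j := fun h => hi (h ▸ hj)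
  have hL0 : (L : ℝ) ≠ 0 := by positivity
  have hR0 : (R : ℝ) ≠ 0 := by positivity
  have hrel : ∀ x : W L R, rel i j e x z ↔ z.2 x.1.1 = x.1.2 := by
    intro x
    unfold rel
    constructor
    · intro h
      exact h.2.1 hi hj
    · intro h
      exact ⟨fun h1 => absurd h1 hi, fun _ _ => h, fun h1 => absurd h1 hi⟩
  have hcnt : cnt L R i j e = (L : ℝ) * R ^ L := by
    unfold cnt
    rw [if_neg hi, if_pos hj]
  unfold ker
  simp only [if_neg hij, hcnt, hrel]
  rw [Fintype.sum_prod_type, Fintype.sum_prod_type, Finset.sum_div]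
  apply Finset.sum_congr rfl
  intro t _
  rw [Finset.sum_eq_single (z.2 t)]
  · simp only [if_true]
    unfold th avg
    rw [card_St, ← Finset.mul_sum]
    field_simp
  · intro c _ hc
    simp only [hc.symm, if_false, zero_div, zero_mul, Finset.sum_const_zero]
  · intro h
    exact absurd (Finset.mem_univ _) h

lemma sum_mem {k L q : ℕ} (hL : 1 ≤ L) (hq : 1 ≤ q) {i j : Fin k} {e : Sym2 (Fin k)}
    (hj : j ∈ e) (hi : i ∈ e) (hij : i ≠ j) (z : W L (q + 1)) (f : W L (q + 1) → ℝ) :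
    ∑ x, ker j e i z x * f x = hh (ps f) z.2 := by
  have hL0 : (L : ℝ) ≠ 0 := by positivity
  have hq0 : (q : ℝ) ≠ 0 := by positivity
  have hR0 : ((q + 1 : ℕ) : ℝ) ≠ 0 := by positivity
  have hrel : ∀ x : W L (q + 1), rel i j e x z ↔ ∀ t, x.2 t ≠ z.2 t := by
    intro x
    unfold rel
    constructor
    · intro h
      exact h.2.2 hi hj
    · intro h
      exact ⟨fun _ h1 => absurd hj h1, fun h1 => absurd hi h1, fun _ _ => h⟩
  have hcnt : cnt L (q + 1) i j e = (L : ℝ) * ((q + 1 : ℕ) : ℝ) * (q : ℝ) ^ L := by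
    unfold cnt
    rw [if_pos hi, if_pos hj]
    push_cast
    ring
  unfold ker
  simp only [if_neg hij, hcnt, hrel]
  rw [Fintype.sum_prod_type_right]
  unfold hh
  rw [Finset.sum_div]
  apply Finset.sum_congr rfl
  intro σ _
  by_cases h : ∀ t, σ t ≠ z.2 t
  · simp only [if_pos h]
    unfold ps avg
    rw [card_Lab, ← Finset.mul_sum]
    field_simp
  · simp only [if_neg h, zero_div, zero_mul, Finset.sum_const_zero]

lemma ps_mem {L R : ℕ} (hL : 1 ≤ L) (hR : 1 ≤ R) {f : W L R → ℝ}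
    (hf : ∀ x, -1 ≤ f x ∧ f x ≤ 0) (σ : St L R) : -1 ≤ ps f σ ∧ ps f σ ≤ 0 := by
  have : Nonempty (Fin L) := ⟨⟨0, hL⟩⟩
  have : Nonempty (Fin R) := ⟨⟨0, hR⟩⟩
  constructor
  · have := avg_mono (f := fun _ : Lab L R => (-1 : ℝ)) (g := fun a => f (a, σ))
      (fun a => (hf _).1)
    rw [avg_const] at this
    exact this
  · have := avg_mono (f := fun a => f (a, σ)) (g := fun _ : Lab L R => (0 : ℝ))
      (fun a => (hf _).2)
    rw [avg_const] at this
    exact this

/-- the part of the types which are not in `e` -/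
lemma partX (h2 : T_K2) (hH : T_HOL) {k r : ℕ} (hr : 1 ≤ r) (hk : 1 ≤ k)
    (B : Finset (Fin k)) (φ : Fin k → W (2 * r * k) (2 * r + 1) → ℝ) :
    avg (fun σ : St (2 * r * k) (2 * r + 1) => Real.exp (2 * (r * ∑ i ∈ B,
      (∑ t, th (φ i) (t, σ t)) / ((2 * r * k : ℕ) : ℝ)))) ≤
      ∏ i ∈ B, (avg (fun x => Real.exp (φ i x))) ^ (2 * r) := by
  have hL1 : 1 ≤ 2 * r * k := Nat.one_le_iff_ne_zero.2 (by positivity)
  have : Nonempty (Fin (2 * r * k)) := ⟨⟨0, hL1⟩⟩
  have hr0 : (r : ℝ) ≠ 0 := by positivity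
  have hk0 : (k : ℝ) ≠ 0 := by positivity
  have h := h2 (2 * r * k) (2 * r + 1) hL1 (by omega)
    (fun a => (∑ i, if i ∈ B then th (φ i) a else 0) / k)
  have e1 : (fun σ : St (2 * r * k) (2 * r + 1) => Real.exp (2 * (r * ∑ i ∈ B,
      (∑ t, th (φ i) (t, σ t)) / ((2 * r * k : ℕ) : ℝ))))
      = fun σ : Fin (2 * r * k) → Fin (2 * r + 1) => Real.exp (∑ t,
        (∑ i, if i ∈ B then th (φ i) (t, σ t) else 0) / (k : ℝ)) := by
    funext σ
    congr 1
    have e2 : ∀ i, ∑ t, (if i ∈ B then th (φ i) (t, σ t) else 0)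
        = if i ∈ B then ∑ t, th (φ i) (t, σ t) else 0 := by
      intro i
      by_cases hi : i ∈ B
      · simp only [if_pos hi]
      · simp only [if_neg hi, Finset.sum_const_zero]
    have e3 : ∑ t, (∑ i, if i ∈ B then th (φ i) (t, σ t) else 0) / (k : ℝ)
        = (∑ i ∈ B, ∑ t, th (φ i) (t, σ t)) / (k : ℝ) := by
      rw [← Finset.sum_div, Finset.sum_comm]
      simp only [e2]
      rw [Finset.sum_ite_mem, Finset.univ_inter]
    rw [e3, ← Finset.sum_div]
    push_cast
    field_simp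
  rw [e1]
  refine h.trans ?_
  have hp : ∀ x : ℝ, x ^ (2 * r * k) = (x ^ k) ^ (2 * r) := by
    intro x
    rw [← pow_mul, mul_comm k (2 * r)]
  rw [hp, Finset.prod_pow]
  apply pow_le_pow_left₀ (pow_nonneg (avg_exp_nonneg _) _)
  have h3 := hH (Lab (2 * r * k) (2 * r + 1)) k hk (fun i a => if i ∈ B then th (φ i) a else 0)
  have h4 : ∏ i, avg (fun a : Lab (2 * r * k) (2 * r + 1) =>
      Real.exp (if i ∈ B then th (φ i) a else 0)) ≤
      ∏ i ∈ B, avg (fun x => Real.exp (φ i x)) := by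
    rw [← Finset.prod_filter_mul_prod_filter_not univ (fun i => i ∈ B)]
    have e3 : ∏ i ∈ univ.filter (fun i => ¬ i ∈ B),
        avg (fun a : Lab (2 * r * k) (2 * r + 1) =>
          Real.exp (if i ∈ B then th (φ i) a else 0)) = 1 := by
      apply Finset.prod_eq_one
      intro i hi
      have hi' := (Finset.mem_filter.1 hi).2
      simp only [if_neg hi', Real.exp_zero]
      exact avg_const 1
    rw [e3, mul_one]
    have e4 : univ.filter (fun i => i ∈ B) = B := by
      ext i; simp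
    rw [e4]
    apply Finset.prod_le_prod (fun i _ => avg_exp_nonneg _)
    intro i hi
    simp only [if_pos hi]
    exact jensen_left (φ i)
  exact h3.trans h4

/-- the part of the other type of `e` -/
lemma partY (h3 : T_K3) {k L r : ℕ} (hr : 1 ≤ r) (hL : 1 ≤ L)
    (E : Finset (Fin k)) (hE : E.card ≤ 1) (φ : Fin k → W L (2 * r + 1) → ℝ)
    (hφ : ∀ i x, -1 ≤ φ i x ∧ φ i x ≤ 0) :
    avg (fun σ : St L (2 * r + 1) => Real.exp (2 * (r * ∑ i ∈ E, hh (ps (φ i)) σ))) ≤
      ∏ i ∈ E, (avg (fun x => Real.exp (φ i x))) ^ (2 * r) := by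
  have : Nonempty (Fin L) := ⟨⟨0, hL⟩⟩
  have hc : E.card = 0 ∨ E.card = 1 := by omega
  rcases hc with h | h
  · rw [Finset.card_eq_zero] at h
    subst h
    simp only [Finset.sum_empty, mul_zero, Real.exp_zero, Finset.prod_empty]
    exact (avg_const 1).le
  · obtain ⟨i, rfl⟩ := Finset.card_eq_one.1 h
    simp only [Finset.sum_singleton, Finset.prod_singleton]
    have hK := h3 L (2 * r) (by omega) (ps (φ i)) (ps_mem hL (by omega) (hφ i))
    have e2 : (fun σ : St L (2 * r + 1) => Real.exp (2 * (r * hh (ps (φ i)) σ)))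
        = fun σ : Fin L → Fin (2 * r + 1) => Real.exp (((2 * r : ℕ) : ℝ) *
          ((∑ σ' : Fin L → Fin (2 * r + 1), if (∀ t, σ' t ≠ σ t) then ps (φ i) σ' else 0) /
            ((2 * r : ℕ) : ℝ) ^ L)) := by
      funext σ
      congr 1
      unfold hh
      push_cast
      ring
    rw [e2]
    refine hK.trans ?_
    exact pow_le_pow_left₀ (avg_exp_nonneg _) (jensen_right (φ i)) _

lemma card_other {k : ℕ} {j : Fin k} {e : Sym2 (Fin k)} (hj : j ∈ e) :
    ((univ : Finset (Fin k)).filter (fun i => i ∈ e ∧ i ≠ j)).card ≤ 1 := by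
  obtain ⟨l, rfl⟩ := hj
  have : (univ : Finset (Fin k)).filter (fun i => i ∈ s(j, l) ∧ i ≠ j) ⊆ {l} := by
    intro i hi
    have h := (Finset.mem_filter.1 hi).2
    have h1 : i = j ∨ i = l := by simpa using h.1
    rcases h1 with h1 | h1
    · exact absurd h1 h.2
    · simpa using h1
  exact (Finset.card_le_card this).trans (by simp)

theorem pf_HEB (h2 : T_K2) (h3 : T_K3) (hH : T_HOL) : T_HEB := by
  intro k r hr hk j e hj φ hφ
  have hL1 : 1 ≤ 2 * r * k := Nat.one_le_iff_ne_zero.2 (by positivity)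
  have : Nonempty (Fin (2 * r * k)) := ⟨⟨0, hL1⟩⟩
  set E : Finset (Fin k) := univ.filter (fun i => i ∈ e ∧ i ≠ j) with hE
  set B : Finset (Fin k) := univ.filter (fun i => i ∉ e) with hB
  have hsplit : ∀ (F : Fin k → ℝ), ∑ i, F i = F j + (∑ i ∈ B, F i + ∑ i ∈ E, F i) := by
    intro F
    rw [← Finset.sum_filter_add_sum_filter_not univ (fun i => i ∈ e)]
    have e1 : univ.filter (fun i => i ∈ e) = insert j E := by
      ext i
      simp only [Finset.mem_filter, Finset.mem_univ, true_and, Finset.mem_insert, hE]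
      constructor
      · intro h
        by_cases hij : i = j
        · exact Or.inl hij
        · exact Or.inr ⟨h, hij⟩
      · rintro (h | h)
        · exact h ▸ hj
        · exact h.1
    rw [e1, Finset.sum_insert (by simp [hE])]
    ring
  have hsplitp : ∀ (F : Fin k → ℝ), ∏ i, F i = F j * ((∏ i ∈ B, F i) * ∏ i ∈ E, F i) := by
    intro F
    rw [← Finset.prod_filter_mul_prod_filter_not univ (fun i => i ∈ e)]
    have e1 : univ.filter (fun i => i ∈ e) = insert j E := by
      ext i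
      simp only [Finset.mem_filter, Finset.mem_univ, true_and, Finset.mem_insert, hE]
      constructor
      · intro h
        by_cases hij : i = j
        · exact Or.inl hij
        · exact Or.inr ⟨h, hij⟩
      · rintro (h | h)
        · exact h ▸ hj
        · exact h.1
    rw [e1, Finset.prod_insert (by simp [hE])]
    ring
  have hsum : ∀ z : W (2 * r * k) (2 * r + 1), ∑ i, ∑ x, ker j e i z x * φ i x
      = avg (φ j) + (∑ i ∈ B, (∑ t, th (φ i) (t, z.2 t)) / ((2 * r * k : ℕ) : ℝ)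
        + ∑ i ∈ E, hh (ps (φ i)) z.2) := by
    intro z
    rw [hsplit, sum_eq]
    congr 2
    · exact Finset.sum_congr rfl fun i hi =>
        sum_not_mem hL1 (by omega) hj (Finset.mem_filter.1 hi).2 z (φ i)
    · exact Finset.sum_congr rfl fun i hi =>
        sum_mem hL1 (by omega) hj (Finset.mem_filter.1 hi).2.1 (Finset.mem_filter.1 hi).2.2 z (φ i)
  have hlhs : avg (fun z : W (2 * r * k) (2 * r + 1) =>
        Real.exp (r * ∑ i, ∑ x, ker j e i z x * φ i x))
      = Real.exp (r * avg (φ j)) *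
        avg (fun σ : St (2 * r * k) (2 * r + 1) => Real.exp (
          r * (∑ i ∈ B, (∑ t, th (φ i) (t, σ t)) / ((2 * r * k : ℕ) : ℝ))
          + r * ∑ i ∈ E, hh (ps (φ i)) σ)) := by
    have e1 : ∀ z : W (2 * r * k) (2 * r + 1),
        Real.exp (r * ∑ i, ∑ x, ker j e i z x * φ i x)
        = Real.exp (r * avg (φ j)) * Real.exp (
          r * (∑ i ∈ B, (∑ t, th (φ i) (t, z.2 t)) / ((2 * r * k : ℕ) : ℝ))
          + r * ∑ i ∈ E, hh (ps (φ i)) z.2) := by
      intro z
      rw [hsum, mul_add, Real.exp_add, mul_add]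
    simp only [e1]
    rw [avg_mul_left]
    congr 1
    exact avg_snd (fun σ : St (2 * r * k) (2 * r + 1) => Real.exp (
          r * (∑ i ∈ B, (∑ t, th (φ i) (t, σ t)) / ((2 * r * k : ℕ) : ℝ))
          + r * ∑ i ∈ E, hh (ps (φ i)) σ))
  show avg (fun z : W (2 * r * k) (2 * r + 1) =>
    Real.exp (r * ∑ i, ∑ x, ker j e i z x * φ i x)) ≤ _
  rw [hlhs, hsplitp, mul_pow]
  apply mul_le_mul (exp_mul_avg_le r (φ j)) _ (avg_exp_nonneg _)
    (pow_nonneg (avg_exp_nonneg _) _)
  have hnB : 0 ≤ ∏ i ∈ B, avg (fun x => Real.exp (φ i x)) :=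
    Finset.prod_nonneg fun i _ => avg_exp_nonneg _
  have hnE : 0 ≤ ∏ i ∈ E, avg (fun x => Real.exp (φ i x)) :=
    Finset.prod_nonneg fun i _ => avg_exp_nonneg _
  apply le_of_sq (pow_nonneg (mul_nonneg hnB hnE) _)
  refine (cs _ _).trans ?_
  rw [← pow_mul, mul_comm r 2, mul_pow, ← Finset.prod_pow, ← Finset.prod_pow]
  exact mul_le_mul (partX h2 hH hr hk B φ) (partY h3 hr hL1 E (card_other hj) φ hφ)
    (avg_exp_nonneg _) (Finset.prod_nonneg fun i _ => pow_nonneg (avg_exp_nonneg _) _)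

end Pool.Agent.H91.EP.HEB
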