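import Pool.Agent.H64.EP.Targets

/-!
Common lemmas for HEA and HEB: averages, Jensen, Cauchy-Schwarz.
-/

set_option autoImplicit false

open Finset
open scoped Classical

namespace Pool.Agent.H91.EP.Com

open Pool.Agent.H64.EP

variable {α β : Type} [Fintype α] [Fintype β]

lemma card_pos' [Nonempty α] : (0 : ℝ) < (Fintype.card α : ℝ) := by
  exact_mod_cast Fintype.card_pos

lemma avg_const [Nonempty α] (c : ℝ) : avg (fun _ : α => c) = c := by
  unfold avg
  rw [Finset.sum_const, Finset.card_univ, nsmul_eq_mul]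
  exact mul_div_cancel_left₀ c card_pos'.ne'

lemma avg_mono {f g : α → ℝ} (h : ∀ a, f a ≤ g a) : avg f ≤ avg g := by
  unfold avg
  exact div_le_div_of_nonneg_right (Finset.sum_le_sum fun a _ => h a) (Nat.cast_nonneg _)

lemma avg_nonneg {f : α → ℝ} (h : ∀ a, 0 ≤ f a) : 0 ≤ avg f := by
  unfold avg
  exact div_nonneg (Finset.sum_nonneg fun a _ => h a) (Nat.cast_nonneg _)

lemma avg_exp_nonneg (f : α → ℝ) : 0 ≤ avg (fun a => Real.exp (f a)) :=
  avg_nonneg fun _ => (Real.exp_pos _).le

lemma avg_mul_left (c : ℝ) (f : α → ℝ) : avg (fun a => c * f a) = c * avg f := by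
  unfold avg
  rw [← Finset.mul_sum, mul_div_assoc]

lemma avg_fst [Nonempty β] (F : α → ℝ) : avg (fun z : α × β => F z.1) = avg F := by
  unfold avg
  rw [Fintype.sum_prod_type, Fintype.card_prod]
  have h : (Fintype.card β : ℝ) ≠ 0 := card_pos'.ne'
  simp only [Finset.sum_const, Finset.card_univ, nsmul_eq_mul]
  rw [← Finset.mul_sum]
  push_cast
  rw [mul_comm (Fintype.card α : ℝ), mul_div_mul_left _ _ h]

lemma avg_snd [Nonempty α] (F : β → ℝ) : avg (fun z : α × β => F z.2) = avg F := by
  unfold avg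
  rw [Fintype.sum_prod_type, Fintype.card_prod]
  have h : (Fintype.card α : ℝ) ≠ 0 := card_pos'.ne'
  simp only [Finset.sum_const, Finset.card_univ, nsmul_eq_mul]
  push_cast
  rw [mul_div_mul_left _ _ h]

lemma avg_prod_left (F : α × β → ℝ) :
    avg (fun a => avg (fun b => F (a, b))) = avg F := by
  unfold avg
  rw [Fintype.sum_prod_type, Fintype.card_prod, ← Finset.sum_div, div_div]
  push_cast
  rw [mul_comm (Fintype.card β : ℝ)]

lemma avg_prod_right (F : α × β → ℝ) :
    avg (fun b => avg (fun a => F (a, b))) = avg F := by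
  unfold avg
  rw [Fintype.sum_prod_type_right, Fintype.card_prod, ← Finset.sum_div, div_div]
  push_cast
  rfl

/-- Jensen -/
lemma exp_avg_le [Nonempty α] (f : α → ℝ) :
    Real.exp (avg f) ≤ avg (fun a => Real.exp (f a)) := by
  set m := avg f with hm
  have h1 : ∀ a, Real.exp m * (1 + (f a - m)) ≤ Real.exp (f a) := by
    intro a
    have h2 := Real.add_one_le_exp (f a - m)
    have h3 : Real.exp (f a) = Real.exp m * Real.exp (f a - m) := by
      rw [← Real.exp_add]; congr 1; ring
    rw [h3]
    exact mul_le_mul_of_nonneg_left (by linarith) (Real.exp_pos _).le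
  have h4 : avg (fun a => Real.exp m * (1 + (f a - m))) = Real.exp m := by
    rw [avg_mul_left]
    have : avg (fun a => 1 + (f a - m)) = 1 := by
      have e1 : avg (fun a => 1 + (f a - m)) = avg f + avg (fun _ : α => 1 - m) := by
        unfold avg
        rw [← add_div, ← Finset.sum_add_distrib]
        congr 1
        exact Finset.sum_congr rfl fun a _ => by ring
      rw [e1, avg_const, ← hm]; ring
    rw [this, mul_one]
  calc Real.exp m = avg (fun a => Real.exp m * (1 + (f a - m))) := h4.symm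
    _ ≤ _ := avg_mono h1

lemma exp_mul_avg_le [Nonempty α] (r : ℕ) (f : α → ℝ) :
    Real.exp (r * avg f) ≤ (avg (fun a => Real.exp (f a))) ^ r := by
  rw [Real.exp_nat_mul]
  exact pow_le_pow_left₀ (Real.exp_pos _).le (exp_avg_le f) r

/-- Jensen on the fibres -/
lemma jensen_right [Nonempty α] (F : α × β → ℝ) :
    avg (fun b => Real.exp (avg (fun a => F (a, b)))) ≤ avg (fun z => Real.exp (F z)) := by
  rw [← avg_prod_right (fun z => Real.exp (F z))]
  exact avg_mono fun b => exp_avg_le _

lemma jensen_left [Nonempty β] (F : α × β → ℝ) :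
    avg (fun a => Real.exp (avg (fun b => F (a, b)))) ≤ avg (fun z => Real.exp (F z)) := by
  rw [← avg_prod_left (fun z => Real.exp (F z))]
  exact avg_mono fun a => exp_avg_le _

/-- Cauchy-Schwarz -/
lemma cs (f g : α → ℝ) :
    (avg (fun a => Real.exp (f a + g a))) ^ 2 ≤
      avg (fun a => Real.exp (2 * f a)) * avg (fun a => Real.exp (2 * g a)) := by
  unfold avg
  rw [div_pow, div_mul_div_comm, ← sq]
  apply div_le_div_of_nonneg_right _ (sq_nonneg _)
  have h := Finset.sum_mul_sq_le_sq_mul_sq Finset.univ (fun a => Real.exp (f a))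
    (fun a => Real.exp (g a))
  have e1 : ∀ a, Real.exp (f a + g a) = Real.exp (f a) * Real.exp (g a) := fun a =>
    Real.exp_add _ _
  have e2 : ∀ x : ℝ, Real.exp (2 * x) = Real.exp x ^ 2 := fun x => by
    rw [← Real.exp_nat_mul]; norm_num
  simp only [e1, e2]
  exact h

lemma cs_single [Nonempty α] (f : α → ℝ) :
    (avg (fun a => Real.exp (f a))) ^ 2 ≤ avg (fun a => Real.exp (2 * f a)) := by
  have h := cs f (fun _ : α => (0 : ℝ))
  simp only [add_zero, mul_zero, Real.exp_zero, avg_const, mul_one] at h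
  exact h

lemma cs2 [Nonempty α] {ι : Type} (E : Finset ι) (hE : E.card ≤ 2) (g : ι → α → ℝ) :
    (avg (fun a => Real.exp (∑ i ∈ E, g i a))) ^ 2 ≤
      ∏ i ∈ E, avg (fun a => Real.exp (2 * g i a)) := by
  have : E.card = 0 ∨ E.card = 1 ∨ E.card = 2 := by omega
  rcases this with h | h | h
  · rw [Finset.card_eq_zero] at h
    subst h
    simp [avg_const]
  · obtain ⟨i, rfl⟩ := Finset.card_eq_one.1 h
    simp only [Finset.sum_singleton, Finset.prod_singleton]
    exact cs_single _
  · obtain ⟨i, j, hij, rfl⟩ := Finset.card_eq_two.1 h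
    simp only [Finset.sum_pair hij, Finset.prod_pair hij]
    exact cs _ _

lemma card_mem_le {k : ℕ} (e : Sym2 (Fin k)) :
    ((univ : Finset (Fin k)).filter (fun i => i ∈ e)).card ≤ 2 := by
  induction e using Sym2.ind with
  | _ u v =>
    have : (univ : Finset (Fin k)).filter (fun i => i ∈ s(u, v)) ⊆ {u, v} := by
      intro i hi
      simpa using hi
    exact (Finset.card_le_card this).trans (Finset.card_le_two)

lemma le_of_sq {x y : ℝ} (hy : 0 ≤ y) (h : x ^ 2 ≤ y ^ 2) : x ≤ y :=
  le_of_abs_le (abs_le_of_sq_le_sq h hy)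

/-- the average over all data of a coordinate -/
lemma card_W (L R : ℕ) : (Fintype.card (W L R) : ℝ) = (L : ℝ) * R * R ^ L := by
  rw [Fintype.card_prod, Fintype.card_prod, Fintype.card_fin, Fintype.card_fin,
    Fintype.card_fun, Fintype.card_fin, Fintype.card_fin]
  push_cast
  ring

lemma sum_const_ker {L R : ℕ} (f : W L R → ℝ) :
    ∑ x : W L R, 1 / ((L : ℝ) * R * R ^ L) * f x = avg f := by
  unfold avg
  rw [card_W, ← Finset.mul_sum, one_div, div_eq_inv_mul]

end Pool.Agent.H91.EP.Com
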